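import Pool.Agent.W593.ZT.Stm

open scoped Classical

set_option autoImplicit false
set_option linter.all false

namespace Pool.Agent.W918.ZT

open Pool.Agent.W593.ZT

theorem tc_card {G : Type} [AddCommGroup G] [Fintype G] (M : AddSubgroup G) (A : Finset G)
    (h : Tc M A) : A.card ≤ Nat.card M := by
  rcases A.eq_empty_or_nonempty with hE | ⟨x0, hx0⟩
  · rw [hE]
    simp
  · have h1 : Nat.card A ≤ Nat.card M := by
      refine Nat.card_le_card_of_injective (fun a : A => (⟨a.1 - x0, h a.1 a.2 x0 hx0⟩ : M)) ?_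
      intro a b hab
      have : a.1 - x0 = b.1 - x0 := congrArg Subtype.val hab
      exact Subtype.ext (sub_left_injective this)
    simpa using h1

theorem k3w : S_K3W := by
  intro V G _ _ _ c M B h
  have hG : Fintype.card G = 3 * M.index := by
    have := M.card_mul_index
    rw [h.k3, Nat.card_eq_fintype_card] at this
    exact this.symm
  have hU : ∀ z ∈ Us c M B, (Cs c B z).Nonempty ∧ Tc M (Cs c B z) ∧ (Cs c B z).card ≤ 3 := by
    intro z hz
    unfold Us at hz
    rw [Finset.mem_sdiff] at hz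
    have hT : Tc M (Cs c B z) := by
      by_contra hn
      exact hz.2 (Finset.mem_filter.2 ⟨hz.1, hn⟩)
    refine ⟨h.ne.image _, hT, ?_⟩
    rw [← h.k3]
    exact tc_card M _ hT
  refine ⟨hU, hG, ?_, ?_⟩
  · rw [← hG, ← h.ctx.card, Finset.card_sdiff_add_card_eq_card (Finset.subset_univ B), Finset.card_univ]
  · rw [← hG]
    refine h.ff.trans ?_
    have hsub : nc c M Finset.univ B ⊆ Finset.univ \ B := Finset.filter_subset _ _
    have h1 : FF c B = ∑ z ∈ Us c M B, (min (Cs c B z).card 3 - 1) +
        ∑ z ∈ nc c M Finset.univ B, (min (Cs c B z).card 3 - 1) := by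
      unfold FF Us
      exact (Finset.sum_sdiff hsub).symm
    have h2 : ∑ z ∈ Us c M B, (min (Cs c B z).card 3 - 1) ≤ ∑ z ∈ Us c M B, ((Cs c B z).card - 1) :=
      Finset.sum_le_sum fun z _ => by omega
    have h3 : ∑ z ∈ nc c M Finset.univ B, (min (Cs c B z).card 3 - 1) ≤ 2 * (nc c M Finset.univ B).card := by
      calc ∑ z ∈ nc c M Finset.univ B, (min (Cs c B z).card 3 - 1) ≤ ∑ z ∈ nc c M Finset.univ B, 2 :=
            Finset.sum_le_sum fun z _ => by omega
        _ = 2 * (nc c M Finset.univ B).card := by simp [mul_comm]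
    omega

end Pool.Agent.W918.ZT
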